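import Pool.Agent.helper91.HZ.Spec

/-!
# hz:PSE
-/

set_option autoImplicit false

namespace Pool.Agent.HZ

open Matrix Polynomial Pool.Agent.GO Pool.Agent.AR Pool.Agent.RG MeasureTheory NumberField

theorem PSE_desc {κ : Type} [Field κ] (t : ℕ) : ∀ i : ℕ,
    ∏ l ∈ Finset.range i, ((t : κ) - (l : κ)) = ((t.descFactorial i : ℕ) : κ) := by
  intro i
  induction i with
  | zero => simp
  | succ i ih =>
    rw [Finset.prod_range_succ, ih, Nat.descFactorial_succ, Nat.cast_mul, mul_comm]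
    by_cases h : i ≤ t
    · rw [Nat.cast_sub h]
    · have h0 : t.descFactorial i = 0 := Nat.descFactorial_eq_zero_iff_lt.2 (by omega)
      rw [h0]
      simp

theorem PSE_cf {κ : Type} [Field κ] (t i : ℕ) (hi : ((i.factorial : ℕ) : κ) ≠ 0) :
    cf κ i * ∏ l ∈ Finset.range i, ((t : κ) - (l : κ)) = ((t.choose i : ℕ) : κ) := by
  rw [PSE_desc, Nat.descFactorial_eq_factorial_mul_choose, Nat.cast_mul]
  unfold cf
  rw [← mul_assoc, inv_mul_cancel₀ hi, one_mul]

/-- powers of unipotent matrices -/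
theorem PSE_pow {κ m : Type} [Field κ] [Fintype m] [DecidableEq m] (n : ℕ) (A : Matrix m m κ)
    (hA : (A - 1) ^ n = 0) (t : ℕ) :
    A ^ t = ∑ i ∈ Finset.range n, ((t.choose i : ℕ) : κ) • (A - 1) ^ i := by
  have h1 : A = (A - 1) + 1 := by abel
  have h2 : A ^ t = ∑ i ∈ Finset.range (t + 1), ((t.choose i : ℕ) : κ) • (A - 1) ^ i := by
    conv_lhs => rw [h1]
    rw [(Commute.one_right (A - 1)).add_pow]
    refine Finset.sum_congr rfl fun i _ => ?_
    rw [one_pow, mul_one, ← nsmul_eq_mul', Nat.cast_smul_eq_nsmul]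
  have h3 : ∀ i, n ≤ i → (A - 1) ^ i = 0 := by
    intro i hi
    rw [← Nat.add_sub_cancel' hi, pow_add, hA, zero_mul]
  have h4 : ∀ M, n ≤ M → t + 1 ≤ M →
      ∑ i ∈ Finset.range M, ((t.choose i : ℕ) : κ) • (A - 1) ^ i =
        ∑ i ∈ Finset.range n, ((t.choose i : ℕ) : κ) • (A - 1) ^ i ∧
      ∑ i ∈ Finset.range M, ((t.choose i : ℕ) : κ) • (A - 1) ^ i =
        ∑ i ∈ Finset.range (t + 1), ((t.choose i : ℕ) : κ) • (A - 1) ^ i := by
    intro M hM1 hM2
    constructor
    · refine (Finset.sum_subset (Finset.range_mono hM1) fun i _ hi => ?_).symm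
      rw [Finset.mem_range, not_lt] at hi
      rw [h3 i hi, smul_zero]
    · refine (Finset.sum_subset (Finset.range_mono hM2) fun i _ hi => ?_).symm
      rw [Finset.mem_range, not_lt] at hi
      rw [Nat.choose_eq_zero_of_lt (by omega), Nat.cast_zero, zero_smul]
  obtain ⟨h5, h6⟩ := h4 (max n (t + 1)) (le_max_left _ _) (le_max_right _ _)
  rw [h2, ← h6, h5]

theorem PSE : PSE_stmt := by
  intro κ m _ _ _ n N A hn hA t
  set g : MvPolynomial (Fin N) κ →+* κ := MvPolynomial.eval fun i => ((t i : ℕ) : κ) with hg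
  have h1 : (psi n A).map g = g.mapMatrix (psi n A) := rfl
  rw [h1]
  unfold psi
  rw [map_list_prod, List.map_ofFn]
  refine congrArg (fun f => (List.ofFn f).prod) ?_
  ext1 i
  show g.mapMatrix (PW n (A i) (MvPolynomial.X i : MvPolynomial (Fin N) κ)) = A i ^ t i
  rw [PSE_pow n (A i) (hA i) (t i)]
  unfold PW
  rw [map_sum]
  refine Finset.sum_congr rfl fun j hj => ?_
  rw [← PSE_cf (t i) j (hn j (Finset.mem_range.1 hj))]
  ext a b
  show g ((((algebraMap κ (MvPolynomial (Fin N) κ)) (cf κ j) *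
    ∏ l ∈ Finset.range j, (MvPolynomial.X i - (l : MvPolynomial (Fin N) κ))) •
    ((A i - 1) ^ j).map (algebraMap κ (MvPolynomial (Fin N) κ))) a b) =
    ((cf κ j * ∏ l ∈ Finset.range j, (((t i : ℕ) : κ) - (l : κ))) • (A i - 1) ^ j) a b
  rw [Matrix.smul_apply, Matrix.smul_apply, Matrix.map_apply, smul_eq_mul, smul_eq_mul, map_mul, map_mul,
    map_prod]
  have e1 : ∀ c : κ, g (algebraMap κ (MvPolynomial (Fin N) κ) c) = c := by
    intro c
    rw [hg, MvPolynomial.algebraMap_eq, MvPolynomial.eval_C]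
  have e2 : ∀ l : ℕ, g (MvPolynomial.X i - (l : MvPolynomial (Fin N) κ)) = ((t i : ℕ) : κ) - (l : κ) := by
    intro l
    rw [map_sub, map_natCast, hg, MvPolynomial.eval_X]
  rw [e1, e1]
  simp only [e2]

end Pool.Agent.HZ
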