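import Pool.Agent.helper91.HZ.Spec

/-!
# hz:TRB
-/

set_option autoImplicit false

namespace Pool.Agent.HZ

open Matrix Polynomial Pool.Agent.GO Pool.Agent.AR Pool.Agent.RG MeasureTheory NumberField

theorem TRB : TRB_stmt := by
  intro k _ N m y i₀ htr
  classical
  obtain ⟨s, hs⟩ := (AlgebraicIndependent.matroid k (MvPolynomial (Fin N) k)).exists_isBasis
    (Set.range y) (Set.subset_univ _)
  rw [AlgebraicIndependent.matroid_isBasis_iff] at hs
  obtain ⟨hind, hsub, halg⟩ := hs
  have hfin : s.Finite := (Set.finite_range y).subset hsub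
  -- the variable is transcendental over the algebra generated by `s`
  have htr' : Transcendental (Algebra.adjoin k (Set.range fun a : s => (a : MvPolynomial (Fin N) k)))
      (MvPolynomial.X i₀ : MvPolynomial (Fin N) k) := by
    rw [Subtype.range_coe]
    intro hal
    apply htr
    have hle : Algebra.adjoin k s ≤ Algebra.adjoin k (Set.range y) := Algebra.adjoin_mono hsub
    obtain ⟨P, hP0, hP⟩ := hal
    refine ⟨P.map (Subalgebra.inclusion hle).toRingHom, ?_, ?_⟩
    · intro h0
      apply hP0
      have hinj : Function.Injective (Subalgebra.inclusion hle).toRingHom :=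
        Subalgebra.inclusion_injective hle
      exact (Polynomial.map_eq_zero_iff hinj).1 h0
    · rw [Polynomial.aeval_def, Polynomial.eval₂_map]
      rw [Polynomial.aeval_def] at hP
      exact hP
  have hopt := ((show AlgebraicIndependent k (fun a : s => (a : MvPolynomial (Fin N) k)) from hind).option_iff_transcendental
    (MvPolynomial.X i₀)).2 htr'
  have hcard := hopt.cardinalMk_le_trdeg
  rw [MvPolynomial.trdeg_of_isDomain] at hcard
  have : Fintype s := hfin.fintype
  have hlt : Fintype.card s < N := by
    have h1 : Cardinal.mk (Option s) = ((Fintype.card s + 1 : ℕ) : Cardinal) := by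
      rw [Cardinal.mk_fintype, Fintype.card_option]
    rw [h1, Cardinal.mk_fintype, Fintype.card_fin, Cardinal.lift_natCast, Nat.cast_le] at hcard
    omega
  -- enumerate `s`
  have hch : ∀ a : s, ∃ i, y i = (a : MvPolynomial (Fin N) k) := fun a => hsub a.2
  choose f hf using hch
  let e : Fin (Fintype.card s) ≃ s := (Fintype.equivFin s).symm
  refine ⟨Fintype.card s, fun l => f (e l), hlt, fun a => ?_⟩
  have hr : Set.range (fun l => y (f (e l))) = s := by
    ext x
    constructor
    · rintro ⟨l, rfl⟩
      show y (f (e l)) ∈ s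
      rw [hf]
      exact (e l).2
    · intro hx
      refine ⟨e.symm ⟨x, hx⟩, ?_⟩
      show y (f (e (e.symm ⟨x, hx⟩))) = x
      rw [Equiv.apply_symm_apply, hf]
  rw [hr]
  exact halg (y a) ⟨a, rfl⟩

end Pool.Agent.HZ
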