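import Pool.Agent.helper91.HZ.Spec

/-!
# hz:VPS
-/

set_option autoImplicit false

namespace Pool.Agent.HZ

open Matrix Polynomial Pool.Agent.GO Pool.Agent.AR Pool.Agent.RG MeasureTheory NumberField

theorem VPS_fac {κ : Type} [Field κ] (p : ℕ) [hc : CharP κ p] (hp : p.Prime) (i : ℕ) (hi : i < p) :
    ((i.factorial : ℕ) : κ) ≠ 0 := by
  rw [ne_eq, CharP.cast_eq_zero_iff κ p, hp.dvd_factorial]
  omega

theorem VPS (h1 : PSE_stmt) (h2 : PSM_stmt) (h3 : NIL_stmt) : VPS_stmt := by
  intro J 𝒰 κ _ p k _ _ π hUP Γ m _ _ _ W n N w hn hw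
  constructor
  · filter_upwards [hUP.lim n] with j hj
    intro a b t
    have := hUP.char j
    have hfac : ∀ i < n, ((i.factorial : ℕ) : κ j) ≠ 0 := fun i hi =>
      VPS_fac (p j) (hUP.prime j) i (hi.trans hj)
    have e1 : (fun l => (mt W (w l)).map (Pi.evalRingHom κ j)) = fun l => W j (w l j) := by
      ext l a b
      rfl
    have e2 : (psi n (fun l => mt W (w l))).map (MvPolynomial.map (Pi.evalRingHom κ j)) =
        psi n fun l => W j (w l j) := by
      rw [h2 (Pi.evalRingHom κ j) n N (fun l => mt W (w l)) ?_, e1]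
      intro i _
      unfold cf
      simp
    have e3 := h1 n N (fun l => W j (w l j)) hfac
      (fun l => (h3.1 (p j) n (hUP.prime j) (hUP.char j) hn _ (hw l j)).1) t
    rw [← e2] at e3
    have e4 : (List.ofFn fun i => W j (w i j) ^ t i).prod = W j (List.ofFn fun l => w l j ^ t l).prod := by
      rw [map_list_prod, List.map_ofFn]
      refine congrArg (fun f => (List.ofFn f).prod) ?_
      ext1 i
      exact (map_pow (W j) (w i j) (t i)).symm
    rw [e4] at e3
    exact congrFun (congrFun e3 a) b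
  · have e5 : (fun l => (mt W (w l)).map π) = fun l => star π W (w l) := rfl
    rw [h2 π n N (fun l => mt W (w l)) ?_, e5]
    intro i _
    have hi0 : ((i.factorial : ℕ) : k) ≠ 0 := Nat.cast_ne_zero.2 (Nat.factorial_ne_zero i)
    have e6 : π (((i.factorial : ℕ) : ∀ j, κ j) * cf (∀ j, κ j) i - 1) = 0 := by
      rw [hUP.zero]
      filter_upwards [hUP.lim i] with j hj
      have := hUP.char j
      have hfac : ((i.factorial : ℕ) : κ j) ≠ 0 := VPS_fac (p j) (hUP.prime j) i hj
      unfold cf
      simp [hfac]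
    rw [map_sub, map_mul, map_natCast, map_one, sub_eq_zero] at e6
    unfold cf at e6 ⊢
    exact eq_inv_of_mul_eq_one_right e6

end Pool.Agent.HZ
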